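import Mathlib

namespace Pool.Agent.Results.MP_d100af_an.Yes

open Set Function

/-- Cantor set in `ℝ`: nonempty, compact, totally disconnected, without isolated points. -/
def IsCantor (K : Set ℝ) : Prop :=
  K.Nonempty ∧ IsCompact K ∧ IsTotallyDisconnected K ∧ ∀ x ∈ K, AccPt x (Filter.principal K)

/-- The product `K × L` inside the Euclidean plane. -/
def prodSet (K L : Set ℝ) : Set (EuclideanSpace ℝ (Fin 2)) := {p | p 0 ∈ K ∧ p 1 ∈ L}

/-- The tree distance set `Δ^T(X)`, a set of vectors indexed by the edges of `T`. -/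
def treeDist {V : Type} (T : SimpleGraph V) (X : Set (EuclideanSpace ℝ (Fin 2))) :
    Set (T.edgeSet → ℝ) :=
  {d | ∃ y : V → EuclideanSpace ℝ (Fin 2), Injective y ∧ (∀ v, y v ∈ X) ∧
    ∀ (u v : V) (h : T.Adj u v), d ⟨s(u, v), h⟩ = dist (y u) (y v)}

/-- The pinned tree distance set `Δ^T_p(X)` with root `r`. -/
def pinned {V : Type} (T : SimpleGraph V) (X : Set (EuclideanSpace ℝ (Fin 2))) (r : V)
    (p : EuclideanSpace ℝ (Fin 2)) : Set (T.edgeSet → ℝ) :=
  {d | ∃ y : V → EuclideanSpace ℝ (Fin 2), Injective y ∧ (∀ v, y v ∈ X) ∧ y r = p ∧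
    ∀ (u v : V) (h : T.Adj u v), d ⟨s(u, v), h⟩ = dist (y u) (y v)}

theorem avoid (K : Set ℝ) (hK : Perfect K) (hne : K.Nonempty) (ι : Type) [Countable ι] :
    ∃ g : ι → ℝ, (∀ i, 0 < g i) ∧ ∀ W : ι → Set ℝ,
      (∀ i, ∀ a ∈ W i, ∀ b ∈ W i, |a - b| < g i) → ∃ x ∈ K, ∀ i, x ∉ W i := by
  classical
  obtain ⟨f, fK, fc, fi⟩ := hK.exists_nat_bool_injection hne
  obtain ⟨e, he⟩ := exists_injective_nat ι
  have h : ∀ n : ℕ, ∃ g : ℝ, 0 < g ∧ ∀ p ∈ {p : (ℕ → Bool) × (ℕ → Bool) |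
      p.1 n = true ∧ p.2 n = false}, g ≤ |f p.1 - f p.2| := fun n => by
    refine IsCompact.exists_forall_le' (IsClosed.isCompact ?_) (by fun_prop) ?_
    · exact (isClosed_eq (by fun_prop) continuous_const).inter
        (isClosed_eq (by fun_prop) continuous_const)
    · rintro ⟨a, b⟩ ⟨h1, h2⟩
      refine abs_pos.2 (sub_ne_zero.2 fun h => ?_)
      have := fi h
      simp only at this h1 h2
      rw [this, h2] at h1
      exact Bool.noConfusion h1
  choose g g0 hg using h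
  refine ⟨fun i => g (e i), fun i => g0 _, fun W hW => ?_⟩
  let c : ℕ → Bool := fun n => if ∃ i, e i = n ∧ ∃ a : ℕ → Bool, a n = true ∧ f a ∈ W i
    then false else true
  refine ⟨f c, fK ⟨c, rfl⟩, fun i hi => ?_⟩
  by_cases hc : ∃ j, e j = e i ∧ ∃ a : ℕ → Bool, a (e i) = true ∧ f a ∈ W j
  · have h1 : c (e i) = false := if_pos hc
    obtain ⟨j, hj, a, ha, ha'⟩ := hc
    obtain rfl := he hj
    exact absurd (hW j _ ha' _ hi) (not_lt.2 (hg _ (a, c) ⟨ha, h1⟩))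
  · exact hc ⟨i, rfl, c, if_neg hc, hi⟩

theorem small (M d u v σ y g : ℝ) (hM : 0 < M) (hd : M ≤ d) (hd' : d ≤ 2 * M) (hσ : |σ| = 1)
    (hu : 0 ≤ u) (hv : 0 ≤ v) (hu' : u ≤ M) (hv' : v ≤ M) (hg : 0 < g)
    (h : |y + σ * √(d ^ 2 - u ^ 2) - (y + σ * √(d ^ 2 - v ^ 2))| < g ^ 2 / (4 * M)) :
    |u - v| < g := by
  have a1 : 0 ≤ d ^ 2 - u ^ 2 := by nlinarith
  have a2 : 0 ≤ d ^ 2 - v ^ 2 := by nlinarith
  have b1 := Real.sq_sqrt a1
  have b2 := Real.sq_sqrt a2
  have c1 := Real.sqrt_nonneg (d ^ 2 - u ^ 2)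
  have c2 := Real.sqrt_nonneg (d ^ 2 - v ^ 2)
  generalize √(d ^ 2 - u ^ 2) = s at *
  generalize √(d ^ 2 - v ^ 2) = t at *
  rw [show y + σ * s - (y + σ * t) = σ * (s - t) by ring, abs_mul, hσ, one_mul,
    lt_div_iff₀ (by positivity)] at h
  have s2 : s ≤ 2 * M := by nlinarith
  have t2 : t ≤ 2 * M := by nlinarith
  have e1 : |u ^ 2 - v ^ 2| = |s - t| * (s + t) := by
    rw [← abs_of_nonneg (add_nonneg c1 c2), ← abs_mul, ← abs_neg]
    congr 1; linarith
  have e2 : |u ^ 2 - v ^ 2| = |u - v| * (u + v) := by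
    rw [← abs_of_nonneg (add_nonneg hu hv), ← abs_mul]
    congr 1; ring
  have e3 : |u - v| ≤ u + v := abs_le.2 ⟨by linarith, by linarith⟩
  have e4 : |s - t| * (s + t) ≤ |s - t| * (4 * M) :=
    mul_le_mul_of_nonneg_left (by linarith) (abs_nonneg _)
  have e5 : |u - v| ^ 2 < g ^ 2 := by nlinarith [abs_nonneg (u - v)]
  exact lt_of_pow_lt_pow_left₀ 2 hg.le e5

theorem avoid2 (K : Set ℝ) (hK : Perfect K) (hne : K.Nonempty) (M : ℝ) (hM : 0 < M)
    (hKM : ∀ x ∈ K, ∀ x' ∈ K, |x - x'| ≤ M) (ι : Type) [Countable ι] :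
    ∃ ε : ι → ℝ, (∀ i, 0 < ε i) ∧ ∀ x ∈ K, ∀ d y σ : ℝ, M ≤ d → d ≤ 2 * M → |σ| = 1 →
      ∀ T : ι → Set ℝ, (∀ i, ∀ a ∈ T i, ∀ b ∈ T i, |a - b| < ε i) →
      ∃ x' ∈ K, ∀ i, y + σ * √(d ^ 2 - (x - x') ^ 2) ∉ T i := by
  obtain ⟨g, g0, hg⟩ := avoid K hK hne (ι ⊕ ι)
  have m0 : ∀ i, 0 < min (g (.inl i)) (g (.inr i)) := fun i => lt_min (g0 _) (g0 _)
  refine ⟨fun i => min (g (.inl i)) (g (.inr i)) ^ 2 / (4 * M), fun i => by
    have := m0 i; positivity, fun x hx d y σ hd hd' hσ T hT => ?_⟩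
  obtain ⟨x', hx', H⟩ := hg (Sum.elim
    (fun i => {z | z ∈ K ∧ z ≤ x ∧ y + σ * √(d ^ 2 - (x - z) ^ 2) ∈ T i})
    (fun i => {z | z ∈ K ∧ x ≤ z ∧ y + σ * √(d ^ 2 - (x - z) ^ 2) ∈ T i})) (by
      rintro (i | i) a ⟨a1, a2, a3⟩ b ⟨b1, b2, b3⟩
      · have := small M d (x - a) (x - b) σ y _ hM hd hd' hσ (by linarith) (by linarith)
          (abs_le.1 (hKM x hx a a1)).2 (abs_le.1 (hKM x hx b b1)).2 (m0 i) (hT i _ a3 _ b3)
        rw [show x - a - (x - b) = -(a - b) by ring, abs_neg] at this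
        exact this.trans_le (min_le_left _ _)
      · rw [show (x - a) ^ 2 = (a - x) ^ 2 by ring] at a3
        rw [show (x - b) ^ 2 = (b - x) ^ 2 by ring] at b3
        have := small M d (a - x) (b - x) σ y _ hM hd hd' hσ (by linarith) (by linarith)
          (abs_le.1 (hKM a a1 x hx)).2 (abs_le.1 (hKM b b1 x hx)).2 (m0 i) (hT i _ a3 _ b3)
        rw [show a - x - (b - x) = a - b by ring] at this
        exact this.trans_le (min_le_right _ _))
  refine ⟨x', hx', fun i hi => ?_⟩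
  rcases le_total x' x with h | h
  · exact H (.inl i) ⟨hx', h, hi⟩
  · exact H (.inr i) ⟨hx', h, hi⟩

theorem partner (K : Set ℝ) (hK : IsCantor K) : ∃ (M : ℝ) (L : Set ℝ), 0 < M ∧ IsCantor L ∧
    ∀ x ∈ K, ∀ y ∈ L, ∀ d, M ≤ d → d ≤ 2 * M → ∀ S : Set ℝ, S.Countable →
      ∃ x' ∈ K, ∃ y' ∈ L, y' ∉ S ∧ (x - x') ^ 2 + (y - y') ^ 2 = d ^ 2 := by
  obtain ⟨hne, hc, -, hp⟩ := hK
  obtain ⟨M, hM, hKM⟩ : ∃ M : ℝ, 0 < M ∧ ∀ x ∈ K, ∀ x' ∈ K, |x - x'| ≤ M := by
    obtain ⟨C, hC⟩ := Metric.isBounded_iff.1 hc.isBounded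
    exact ⟨max C 1, by positivity, fun x hx x' hx' => (hC hx hx').trans (le_max_left _ _)⟩
  obtain ⟨ε, ε0, hε⟩ := avoid2 K ⟨hc.isClosed, hp⟩ hne M hM hKM (ℕ ⊕ ℕ)
  let q := TopologicalSpace.denseSeq ℝ
  let I : ℕ → Set ℝ := fun n => Metric.ball (q n) (ε (.inl n) / 2)
  let F : Set ℝ := Icc (-(2 * M)) (2 * M) \ ⋃ n, I n
  have Fc : IsCompact F := isCompact_Icc.diff (isOpen_iUnion fun n => Metric.isOpen_ball)
  obtain ⟨V, D, Vc, Dp, hF⟩ := exists_countable_union_perfect_of_isClosed Fc.isClosed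
  have DF : D ⊆ F := hF ▸ subset_union_right
  have key : ∀ x ∈ K, ∀ y ∈ Icc (-(2 * M)) (2 * M), ∀ d, M ≤ d → d ≤ 2 * M → ∀ S : Set ℝ,
      S.Countable → ∃ x' ∈ K, ∃ y' ∈ D, y' ∉ S ∧ (x - x') ^ 2 + (y - y') ^ 2 = d ^ 2 := by
    intro x hx y hy d hd hd' S hS
    obtain ⟨s, hs⟩ := countable_iff_exists_subset_range.1 (Vc.union hS)
    obtain ⟨σ, hσ, hσ'⟩ : ∃ σ : ℝ, |σ| = 1 ∧ ∀ t, 0 ≤ t → t ≤ 2 * M →
        y + σ * t ∈ Icc (-(2 * M)) (2 * M) := by
      rcases le_total y 0 with h | h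
      · exact ⟨1, by simp, fun t h1 h2 => ⟨by linarith [hy.1], by linarith⟩⟩
      · exact ⟨-1, by simp, fun t h1 h2 => ⟨by linarith, by linarith [hy.2]⟩⟩
    obtain ⟨x', hx', H⟩ := hε x hx d y σ hd hd' hσ (Sum.elim I fun n => {s n}) (by
      rintro (n | n) a ha b hb
      · have := dist_triangle_right a b (q n)
        have h1 : dist a (q n) < ε (.inl n) / 2 := ha
        have h2 : dist b (q n) < ε (.inl n) / 2 := hb
        rw [← Real.dist_eq]; linarith
      · have h1 : a = s n := ha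
        have h2 : b = s n := hb
        simp [h1, h2, ε0])
    have h1 := abs_le.1 (hKM x hx x' hx')
    have a1 : 0 ≤ d ^ 2 - (x - x') ^ 2 := by nlinarith
    have b1 := Real.sq_sqrt a1
    have c1 := Real.sqrt_nonneg (d ^ 2 - (x - x') ^ 2)
    generalize √(d ^ 2 - (x - x') ^ 2) = t at *
    have hn : y + σ * t ∉ V ∪ S := fun h => by
      obtain ⟨n, hn⟩ := hs h
      exact H (.inr n) hn.symm
    have hin : y + σ * t ∈ F := ⟨hσ' t c1 (by nlinarith [sq_nonneg (x - x')]), fun h => by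
      obtain ⟨n, hn⟩ := mem_iUnion.1 h
      exact H (.inl n) hn⟩
    rw [hF] at hin
    refine ⟨x', hx', _, hin.resolve_left fun h => hn (.inl h), fun h => hn (.inr h), ?_⟩
    have : σ ^ 2 = 1 := by rw [← sq_abs, hσ]; ring
    linear_combination b1 + t ^ 2 * this
  refine ⟨M, D, hM, ⟨?_, Fc.of_isClosed_subset Dp.closed DF, ?_, Dp.acc⟩,
    fun x hx y hy => key x hx y (DF hy).1⟩
  · obtain ⟨x, hx⟩ := hne
    obtain ⟨-, -, y, hy, -⟩ := key x hx 0 ⟨by linarith, by linarith⟩ M le_rfl (by linarith) ∅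
      countable_empty
    exact ⟨y, hy⟩
  · intro t ht htc a ha b hb
    by_contra hab
    wlog h : a < b generalizing a b
    · exact this hb ha (Ne.symm hab) (lt_of_le_of_ne (not_lt.1 h) (Ne.symm hab))
    obtain ⟨n, hn⟩ := (TopologicalSpace.denseRange_denseSeq ℝ).exists_mem_open isOpen_Ioo
      (nonempty_Ioo.2 h)
    have := DF (ht (htc.Icc_subset ha hb (Ioo_subset_Icc_self hn)))
    exact this.2 (mem_iUnion.2 ⟨n, Metric.mem_ball_self (half_pos (ε0 _))⟩)

theorem grow {V : Type} [Fintype V] (T : SimpleGraph V) (hT : T.IsTree) (K L : Set ℝ)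
    (d : T.edgeSet → ℝ)
    (H : ∀ x ∈ K, ∀ y ∈ L, ∀ e, ∀ S : Set ℝ, S.Countable →
      ∃ x' ∈ K, ∃ y' ∈ L, y' ∉ S ∧ (x - x') ^ 2 + (y - y') ^ 2 = d e ^ 2)
    (r : V) (a b : ℝ) (ha : a ∈ K) (hb : b ∈ L) (n : ℕ) :
    ∃ (A : Finset V) (X Y : V → ℝ), (A = Finset.univ ∨ n ≤ A.card) ∧ r ∈ A ∧ X r = a ∧ Y r = b ∧
      (∀ v ∈ A, X v ∈ K ∧ Y v ∈ L) ∧ InjOn Y A ∧
      (∀ v ∈ A, ∃ p : T.Walk r v, p.IsPath ∧ ∀ w ∈ p.support, w ∈ A) ∧
      ∀ u ∈ A, ∀ v ∈ A, ∀ h : T.Adj u v,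
        (X u - X v) ^ 2 + (Y u - Y v) ^ 2 = d ⟨s(u, v), h⟩ ^ 2 := by
  classical
  induction n with
  | zero =>
    refine ⟨{r}, fun _ => a, fun _ => b, .inr (Nat.zero_le _), by simp, rfl, rfl,
      fun _ _ => ⟨ha, hb⟩, by simp, fun v hv => ?_, fun u hu v hv h => ?_⟩
    · obtain rfl := Finset.mem_singleton.1 hv
      exact ⟨.nil, by simp, by simp⟩
    · rw [Finset.mem_singleton] at hu hv
      exact absurd (hu.trans hv.symm) h.ne
  | succ n ih =>
    obtain ⟨A, X, Y, h0, hr, hX, hY, h1, h2, h3, h4⟩ := ih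
    by_cases hA : A = Finset.univ
    · exact ⟨A, X, Y, .inl hA, hr, hX, hY, h1, h2, h3, h4⟩
    obtain ⟨w, hw⟩ : ∃ w, w ∉ A := by
      by_contra h
      exact hA (Finset.eq_univ_iff_forall.2 (by simpa using h))
    obtain ⟨p⟩ := hT.connected.preconnected r w
    obtain ⟨⟨⟨u, v⟩, huv⟩, -, hu, hv⟩ := p.exists_boundary_dart (A : Set V) hr hw
    have hu : u ∈ A := hu
    have hv : v ∉ A := hv
    have huv : T.Adj u v := huv
    have cat : ∀ u' ∈ A, ∀ h : T.Adj u' v, ∃ p : T.Walk r u', (p.concat h).IsPath ∧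
        ∀ w ∈ p.support, w ∈ A := fun u' hu' h => by
      obtain ⟨p, hp, hp'⟩ := h3 u' hu'
      exact ⟨p, hp.concat (fun h => hv (hp' v h)) h, hp'⟩
    have uniq : ∀ u' ∈ A, T.Adj u' v → u' = u := fun u' hu' h => by
      obtain ⟨p, hp, -⟩ := cat u hu huv
      obtain ⟨p', hp', -⟩ := cat u' hu' h
      have := congrArg (fun q : T.Path r v => q.1.penultimate)
        (hT.isAcyclic.path_unique ⟨_, hp'⟩ ⟨_, hp⟩)
      simpa using this
    obtain ⟨x', hx', y', hy', hS, he⟩ := H _ (h1 u hu).1 _ (h1 u hu).2 ⟨s(u, v), huv⟩ (Y '' A)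
      ((A.finite_toSet.image Y).countable)
    have ne : ∀ z ∈ A, z ≠ v := fun z hz h => hv (h ▸ hz)
    refine ⟨insert v A, update X v x', update Y v y', .inr ?_, by simp [hr],
      by rw [update_of_ne (ne r hr), hX], by rw [update_of_ne (ne r hr), hY], ?_, ?_, ?_, ?_⟩
    · rw [Finset.card_insert_of_notMem hv]
      exact Nat.succ_le_succ (h0.resolve_left hA)
    · intro z hz
      rcases Finset.mem_insert.1 hz with rfl | hz
      · simp [hx', hy']
      · simpa [update_of_ne (ne z hz)] using h1 z hz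
    · intro z hz z' hz' h
      replace hz := Finset.mem_insert.1 hz
      replace hz' := Finset.mem_insert.1 hz'
      rcases hz with rfl | hz <;> rcases hz' with rfl | hz'
      · rfl
      · rw [update_self, update_of_ne (ne _ hz')] at h
        exact absurd ⟨z', hz', h.symm⟩ hS
      · rw [update_self, update_of_ne (ne _ hz)] at h
        exact absurd ⟨z, hz, h⟩ hS
      · rw [update_of_ne (ne _ hz), update_of_ne (ne _ hz')] at h
        exact h2 hz hz' h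
    · intro z hz
      rcases Finset.mem_insert.1 hz with rfl | hz
      · obtain ⟨p, hp, hp'⟩ := cat u hu huv
        refine ⟨_, hp, fun w hw => ?_⟩
        rw [SimpleGraph.Walk.support_concat] at hw
        simp only [List.mem_append, List.mem_singleton] at hw
        rcases hw with hw | hw
        · exact Finset.mem_insert_of_mem (hp' w hw)
        · simp [hw]
      · obtain ⟨p, hp, hp'⟩ := h3 z hz
        exact ⟨p, hp, fun w hw => Finset.mem_insert_of_mem (hp' w hw)⟩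
    · intro z hz z' hz' h
      replace hz := Finset.mem_insert.1 hz
      replace hz' := Finset.mem_insert.1 hz'
      rcases hz with rfl | hz <;> rcases hz' with rfl | hz'
      · exact absurd rfl h.ne
      · obtain rfl := uniq z' hz' h.symm
        rw [update_self, update_self, update_of_ne (ne _ hz'), update_of_ne (ne _ hz'),
          show (⟨s(z, z'), h⟩ : T.edgeSet) = ⟨s(z', z), huv⟩ from Subtype.ext Sym2.eq_swap]
        linear_combination he
      · obtain rfl := uniq z hz h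
        rw [update_self, update_self, update_of_ne (ne _ hz), update_of_ne (ne _ hz)]
        exact he
      · simp only [update_of_ne (ne _ hz), update_of_ne (ne _ hz')]
        exact h4 z hz z' hz' h

theorem result (K : Set ℝ) (hK : IsCantor K) : ∃ L : Set ℝ, IsCantor L ∧
    ∀ (V : Type) [Fintype V] (T : SimpleGraph V), T.IsTree →
      (interior (treeDist T (prodSet K L))).Nonempty ∧
      ∀ (r : V), ∀ p ∈ prodSet K L, (interior (pinned T (prodSet K L) r p)).Nonempty := by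
  obtain ⟨M, L, hM, hL, H⟩ := partner K hK
  refine ⟨L, hL, fun V _ T hT => ?_⟩
  have P : ∀ (r : V), ∀ p ∈ prodSet K L, (interior (pinned T (prodSet K L) r p)).Nonempty := by
    intro r p hp
    have hs : (univ.pi fun _ => Ioo M (2 * M)) ⊆ pinned T (prodSet K L) r p := fun d hd => by
      obtain ⟨A, X, Y, h0, -, hX, hY, h1, h2, -, h4⟩ := grow T hT K L d (fun x hx y hy e =>
        H x hx y hy _ (hd e trivial).1.le (hd e trivial).2.le) r _ _ hp.1 hp.2
        (Fintype.card V + 1)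
      obtain rfl : A = Finset.univ := h0.resolve_right (by
        have := A.card_le_univ; omega)
      refine ⟨fun v => !₂[X v, Y v], fun u v h => h2 (by simp) (by simp)
        (by simpa using congrArg (fun z : EuclideanSpace ℝ (Fin 2) => z 1) h),
        fun v => by simpa [prodSet] using h1 v (by simp), ?_, fun u v h => ?_⟩
      · ext i; fin_cases i <;> simp [hX, hY]
      · rw [EuclideanSpace.dist_eq, Fin.sum_univ_two]
        simp only [Real.dist_eq, sq_abs]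
        have := h4 u (by simp) v (by simp) h
        simp only [Matrix.cons_val_zero, Matrix.cons_val_one, Matrix.cons_val_fin_one]
        rw [this, Real.sqrt_sq (hM.le.trans (hd _ trivial).1.le)]
    exact ⟨fun _ => 3 / 2 * M, interior_maximal hs
      (isOpen_set_pi finite_univ fun _ _ => isOpen_Ioo)
      fun _ _ => ⟨by linarith, by linarith⟩⟩
  refine ⟨?_, P⟩
  obtain ⟨r⟩ := hT.connected.nonempty
  obtain ⟨a, ha⟩ := hK.1
  obtain ⟨b, hb⟩ := hL.1
  refine (P r !₂[a, b] (by simpa [prodSet] using ⟨ha, hb⟩)).mono (interior_mono ?_)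
  rintro d ⟨y, h1, h2, -, h3⟩
  exact ⟨y, h1, h2, h3⟩

end Pool.Agent.Results.MP_d100af_an.Yes
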